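import Pool.Agent.K1H83.TW.UnitTwo

/-!
Numbers which are near to none of three (two) given numbers outside of a finite set of primes, and the
absolute value of a large prime number.
-/

set_option autoImplicit false

namespace Pool.Agent.U854.DG

open NumberField IsDedekindDomain WithZero
open Pool.Agent.W180.OP (Pl av wt fv)
open Pool.Agent.K1H83.VN

variable {K : Type} [Field K] [NumberField K]

theorem near_p (v : HeightOneSpectrum (𝓞 K)) {p : ℕ} (hp : p.Prime)
    (hpv : (p : 𝓞 K) ∈ v.asIdeal) (hpd : Module.finrank ℚ K + 1 < p) {δ : K}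
    (hδ : v.valuation K δ < 1) {h : ℕ} (hh : 0 < h) :
    v.valuation K δ ^ (h * (p - 1)) < v.valuation K (p : K) := by
  set d := Module.finrank ℚ K with hd
  have hA : exp (-((d + 1 : ℕ) : ℤ)) < v.valuation K (p : K) := by
    rw [← not_le]
    intro hle
    have e0 : (p : K) = algebraMap (𝓞 K) K (p : 𝓞 K) := (map_natCast _ _).symm
    rw [e0, v.valuation_of_algebraMap, v.intValuation_le_pow_iff_dvd] at hle
    have h1 := Ideal.absNorm_dvd_absNorm_of_le (Ideal.le_of_dvd hle)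
    have e1 : (p : 𝓞 K) = algebraMap ℤ (𝓞 K) (p : ℤ) := by simp
    rw [map_pow, Ideal.absNorm_span_singleton, e1, Algebra.norm_algebraMap,
      RingOfIntegers.rank, Int.natAbs_pow, Int.natAbs_natCast] at h1
    have h2 : p ∣ Ideal.absNorm v.asIdeal := by
      by_contra hnd
      have hcop : Nat.Coprime p (Ideal.absNorm v.asIdeal) := (Nat.Prime.coprime_iff_not_dvd hp).2 hnd
      have h3 := Nat.isCoprime_iff_coprime.2 hcop
      obtain ⟨x, y, hxy⟩ := h3
      have h4 : (1 : 𝓞 K) = (x : 𝓞 K) * p + y * (Ideal.absNorm v.asIdeal : 𝓞 K) := by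
        exact_mod_cast congrArg (fun t : ℤ => (t : 𝓞 K)) hxy.symm
      apply v.isPrime.ne_top
      rw [Ideal.eq_top_iff_one, h4]
      exact add_mem (Ideal.mul_mem_left _ _ hpv) (Ideal.mul_mem_left _ _ (Ideal.absNorm_mem _))
    have h3 : p ^ (d + 1) ∣ p ^ d := (pow_dvd_pow_of_dvd h2 (d + 1)).trans h1
    have h4 := (Nat.pow_dvd_pow_iff_le_right hp.one_lt).1 h3
    omega
  have hB : v.valuation K δ ≤ exp (-1 : ℤ) := by
    rw [← lt_mul_exp_iff_le exp_ne_zero, ← exp_add]
    simpa using hδ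
  refine lt_of_le_of_lt (pow_le_pow_left₀ zero_le hB _) (lt_of_le_of_lt ?_ hA)
  rw [← exp_nsmul, exp_le_exp, nsmul_eq_mul]
  have h5 : d + 1 ≤ h * (p - 1) := by
    calc d + 1 ≤ p - 1 := by omega
      _ = 1 * (p - 1) := (one_mul _).symm
      _ ≤ h * (p - 1) := Nat.mul_le_mul_right _ hh
  have h6 : ((d + 1 : ℕ) : ℤ) ≤ ((h * (p - 1) : ℕ) : ℤ) := by exact_mod_cast h5
  linarith

/-- finitely many primes contain a given number -/
theorem fin_of_ne {c : 𝓞 K} (hc : c ≠ 0) :
    {v : HeightOneSpectrum (𝓞 K) | c ∈ v.asIdeal}.Finite := by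
  have h1 : {v : HeightOneSpectrum (𝓞 K) | v.asIdeal ∣ Ideal.span {c}}.Finite :=
    Ideal.finite_factors (by
      intro h0
      exact hc (Ideal.span_singleton_eq_bot.1 h0))
  exact h1.subset fun v hv => Ideal.dvd_span_singleton.2 hv

/-- finitely many primes lie above small prime numbers -/
theorem fin_small (N : ℕ) :
    {v : HeightOneSpectrum (𝓞 K) | ∃ p ≤ N, p.Prime ∧ (p : 𝓞 K) ∈ v.asIdeal}.Finite := by
  have h1 : (⋃ p ∈ Finset.filter Nat.Prime (Finset.range (N + 1)),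
      {v : HeightOneSpectrum (𝓞 K) | (p : 𝓞 K) ∈ v.asIdeal}).Finite := by
    refine Set.Finite.biUnion (Finset.finite_toSet _) fun p hp => ?_
    have hp' : p.Prime := (Finset.mem_filter.1 hp).2
    exact fin_of_ne (by exact_mod_cast hp'.ne_zero)
  refine h1.subset ?_
  rintro v ⟨p, hpN, hp, hv⟩
  simp only [Set.mem_iUnion]
  exact ⟨p, Finset.mem_filter.2 ⟨Finset.mem_range.2 (by omega), hp⟩, hv⟩

theorem exists_prime (v : HeightOneSpectrum (𝓞 K)) :
    ∃ p : ℕ, p.Prime ∧ (p : 𝓞 K) ∈ v.asIdeal := by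
  have h0 : Ideal.absNorm v.asIdeal ≠ 0 := by
    rw [Ne, Ideal.absNorm_eq_zero_iff]
    exact v.ne_bot
  have h1 : (Ideal.absNorm v.asIdeal : 𝓞 K) ∈ v.asIdeal := Ideal.absNorm_mem _
  have hpr := v.isPrime
  have key : ∀ N : ℕ, N ≠ 0 → (N : 𝓞 K) ∈ v.asIdeal → ∃ p : ℕ, p.Prime ∧ (p : 𝓞 K) ∈ v.asIdeal := by
    intro N
    induction N using Nat.recOnMul with
    | zero => intro h; exact absurd rfl h
    | one =>
      intro _ h
      exfalso
      apply hpr.ne_top
      rw [Ideal.eq_top_iff_one]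
      simpa using h
    | prime p hp => intro _ h; exact ⟨p, hp, h⟩
    | mul a b iha ihb =>
      intro hab h
      rw [Nat.cast_mul] at h
      rcases hpr.mem_or_mem h with h | h
      · exact iha (left_ne_zero_of_mul hab) h
      · exact ihb (right_ne_zero_of_mul hab) h
  exact key _ h0 h1

/-- `S`-units from valuations -/
theorem isSU {T : Finset (Pl K)} {x : K} (hx : x ≠ 0)
    (h : ∀ v : HeightOneSpectrum (𝓞 K), Sum.inr v ∉ T → v.valuation K x = 1) : IsSU T x := by
  refine ⟨hx, fun v hv => ?_⟩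
  show ‖FinitePlace.embedding v x‖ = 1
  rw [FinitePlace.norm_embedding', h v hv, map_one]
  rfl

/-- the finite set of places -/
theorem exists_T (S : Set (HeightOneSpectrum (𝓞 K))) (hS : S.Finite) :
    ∃ T : Finset (Pl K), (∀ w : InfinitePlace K, Sum.inl w ∈ T) ∧
      ∀ v : HeightOneSpectrum (𝓞 K), Sum.inr v ∉ T → v ∉ S := by
  classical
  refine ⟨Finset.univ.map ⟨Sum.inl, Sum.inl_injective⟩ ∪
    hS.toFinset.map ⟨Sum.inr, Sum.inr_injective⟩, fun w => ?_, fun v hv hvS => hv ?_⟩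
  · simp
  · simp [hvS]

/-- the unit equation -/
theorem unit_fin (S : Set (HeightOneSpectrum (𝓞 K))) (hS : S.Finite) :
    {x : K | x ≠ 0 ∧ 1 - x ≠ 0 ∧ ∀ v ∉ S, v.valuation K x = 1 ∧
      v.valuation K (1 - x) = 1}.Finite := by
  obtain ⟨T, hT1, hT2⟩ := exists_T S hS
  refine (Pool.Agent.K1H83.TW.unit_two K T hT1 1 1 one_ne_zero one_ne_zero).subset ?_
  rintro x ⟨h0, h1, h2⟩
  exact ⟨isSU h0 fun v hv => (h2 v (hT2 v hv)).1,
    1 - x, isSU h1 fun v hv => (h2 v (hT2 v hv)).2, by ring⟩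

theorem val_int_le (v : HeightOneSpectrum (𝓞 K)) (c : 𝓞 K) : v.valuation K (c : K) ≤ 1 :=
  v.valuation_le_one c

theorem val_int_eq {v : HeightOneSpectrum (𝓞 K)} {c : 𝓞 K} (h : c ∉ v.asIdeal) :
    v.valuation K (c : K) = 1 := by
  refine le_antisymm (v.valuation_le_one c) (not_lt.1 fun hlt => h ?_)
  exact (v.valuation_lt_one_iff_mem c).1 hlt

theorem three_points (S : Set (HeightOneSpectrum (𝓞 K))) (hS : S.Finite) (b : Fin 3 → 𝓞 K)
    (hb : Function.Injective b) :
    {a : K | ∀ l, a ≠ b l ∧ ∀ v ∉ S, 1 ≤ v.valuation K (a - b l)}.Finite := by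
  classical
  have hne : ∀ {i j : Fin 3}, i ≠ j → (b i : K) - b j ≠ 0 := by
    intro i j hij h
    apply hij
    apply hb
    have h2 : (b i : K) = b j := sub_eq_zero.1 h
    exact_mod_cast h2
  have hne' : ∀ {i j : Fin 3}, i ≠ j → b i - b j ≠ 0 := fun hij h =>
    hij (hb (sub_eq_zero.1 h))
  let S' := S ∪ ⋃ i : Fin 3, ⋃ j : Fin 3, {v | i ≠ j ∧ b i - b j ∈ v.asIdeal}
  have hS' : S'.Finite := by
    refine hS.union (Set.finite_iUnion fun i => Set.finite_iUnion fun j => ?_)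
    by_cases hij : i = j
    · convert Set.finite_empty
      ext v
      simp [hij]
    · exact (fin_of_ne (hne' hij)).subset fun v hv => hv.2
  have hu : ∀ v ∉ S', ∀ i j : Fin 3, i ≠ j → v.valuation K ((b i : K) - b j) = 1 := by
    intro v hv i j hij
    have h1 : b i - b j ∉ v.asIdeal := by
      intro h
      apply hv
      refine Or.inr (Set.mem_iUnion.2 ⟨i, Set.mem_iUnion.2 ⟨j, hij, h⟩⟩)
    have h2 := val_int_eq h1
    simpa using h2
  have hr : ∀ a : K, (∀ l, a ≠ b l ∧ ∀ v ∉ S, 1 ≤ v.valuation K (a - b l)) →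
      ∀ v ∉ S', ∀ i, v.valuation K ((a - b i) / (a - b 2)) = 1 := by
    intro a ha v hv i
    have hvS : v ∉ S := fun h => hv (Or.inl h)
    have h0 : ∀ l, v.valuation K (a - b l) ≠ 0 := fun l =>
      (Valuation.ne_zero_iff _).2 (sub_ne_zero.2 (ha l).1)
    rw [map_div₀]
    by_cases hva : v.valuation K a ≤ 1
    · have h1 : ∀ l, v.valuation K (a - b l) = 1 := fun l =>
        le_antisymm ((v.valuation K).map_sub_le hva (val_int_le v _)) ((ha l).2 v hvS)
      rw [h1, h1, div_one]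
    · have h1 : ∀ l, v.valuation K (a - b l) = v.valuation K a := fun l =>
        Valuation.map_sub_eq_of_lt_left _ ((val_int_le v _).trans_lt (not_le.1 hva))
      rw [h1, h1, div_self]
      intro h
      rw [h] at hva
      exact hva zero_le
  let f : K → K := fun a => (a - b 0) / (a - b 2) * (((b 1 : K) - b 2) / ((b 1 : K) - b 0))
  have h01 := hne (i := 0) (j := 1) (by decide)
  have h10 := hne (i := 1) (j := 0) (by decide)
  have h12 := hne (i := 1) (j := 2) (by decide)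
  have h02 := hne (i := 0) (j := 2) (by decide)
  have e1 : ∀ a : K, a ≠ b 2 → 1 - f a =
      (a - b 1) / (a - b 2) * (((b 0 : K) - b 2) / ((b 0 : K) - b 1)) := by
    intro a ha
    have h2 : a - b 2 ≠ 0 := sub_ne_zero.2 ha
    simp only [f]
    field_simp
    ring
  refine Set.Finite.of_injOn (f := f) (t := {x : K | x ≠ 0 ∧ 1 - x ≠ 0 ∧ ∀ v ∉ S',
    v.valuation K x = 1 ∧ v.valuation K (1 - x) = 1}) ?_ ?_ (unit_fin S' hS')
  · intro a ha
    have k2 := sub_ne_zero.2 (ha 2).1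
    refine ⟨?_, ?_, fun v hv => ⟨?_, ?_⟩⟩
    · exact mul_ne_zero (div_ne_zero (sub_ne_zero.2 (ha 0).1) k2) (div_ne_zero h12 h10)
    · rw [e1 a (ha 2).1]
      exact mul_ne_zero (div_ne_zero (sub_ne_zero.2 (ha 1).1) k2) (div_ne_zero h02 h01)
    · show v.valuation K ((a - b 0) / (a - b 2) * (((b 1 : K) - b 2) / ((b 1 : K) - b 0))) = 1
      rw [map_mul, hr a ha v hv 0, map_div₀, hu v hv 1 2 (by decide), hu v hv 1 0 (by decide),
        div_one, one_mul]
    · rw [e1 a (ha 2).1, map_mul, hr a ha v hv 1, map_div₀, hu v hv 0 2 (by decide),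
        hu v hv 0 1 (by decide), div_one, one_mul]
  · intro a ha a' ha' h
    have k2 := sub_ne_zero.2 (ha 2).1
    have k2' := sub_ne_zero.2 (ha' 2).1
    have h1 : (a - b 0) / (a - b 2) = (a' - b 0) / (a' - b 2) :=
      mul_right_cancel₀ (div_ne_zero h12 h10) h
    rw [div_eq_div_iff k2 k2'] at h1
    have h2 : (a - a') * ((b 0 : K) - b 2) = 0 := by linear_combination h1
    exact sub_eq_zero.1 ((mul_eq_zero.1 h2).resolve_right h02)

theorem two_points (S : Set (HeightOneSpectrum (𝓞 K))) (hS : S.Finite) (b : Fin 2 → 𝓞 K)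
    (hb : Function.Injective b) :
    {a : K | (∀ v ∉ S, v.valuation K a ≤ 1) ∧
      ∀ l, a ≠ b l ∧ ∀ v ∉ S, 1 ≤ v.valuation K (a - b l)}.Finite := by
  classical
  have hne' : b 1 - b 0 ≠ 0 := fun h => absurd (hb (sub_eq_zero.1 h)) (by decide)
  have hne : (b 1 : K) - b 0 ≠ 0 := by
    intro h
    apply hne'
    have h2 : (b 1 : K) = b 0 := sub_eq_zero.1 h
    have h3 : b 1 = b 0 := by exact_mod_cast h2
    rw [h3, sub_self]
  let S' := S ∪ {v | b 1 - b 0 ∈ v.asIdeal}
  have hS' : S'.Finite := hS.union (fin_of_ne hne')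
  have hu : ∀ v ∉ S', v.valuation K ((b 1 : K) - b 0) = 1 := by
    intro v hv
    have h1 : b 1 - b 0 ∉ v.asIdeal := fun h => hv (Or.inr h)
    have h2 := val_int_eq h1
    simpa using h2
  have hr : ∀ a : K, (∀ v ∉ S, v.valuation K a ≤ 1) →
      (∀ l, a ≠ b l ∧ ∀ v ∉ S, 1 ≤ v.valuation K (a - b l)) →
      ∀ v ∉ S', ∀ i, v.valuation K (a - b i) = 1 := by
    intro a ha0 ha v hv i
    have hvS : v ∉ S := fun h => hv (Or.inl h)
    exact le_antisymm ((v.valuation K).map_sub_le (ha0 v hvS) (val_int_le v _)) ((ha i).2 v hvS)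
  let f : K → K := fun a => (a - b 0) / ((b 1 : K) - b 0)
  have e1 : ∀ a : K, 1 - f a = -((a - b 1) / ((b 1 : K) - b 0)) := by
    intro a
    simp only [f]
    field_simp
    ring
  refine Set.Finite.of_injOn (f := f) (t := {x : K | x ≠ 0 ∧ 1 - x ≠ 0 ∧ ∀ v ∉ S',
    v.valuation K x = 1 ∧ v.valuation K (1 - x) = 1}) ?_ ?_ (unit_fin S' hS')
  · rintro a ⟨ha0, ha⟩
    refine ⟨?_, ?_, fun v hv => ⟨?_, ?_⟩⟩
    · exact div_ne_zero (sub_ne_zero.2 (ha 0).1) hne
    · rw [e1]
      exact neg_ne_zero.2 (div_ne_zero (sub_ne_zero.2 (ha 1).1) hne)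
    · show v.valuation K ((a - b 0) / ((b 1 : K) - b 0)) = 1
      rw [map_div₀, hr a ha0 ha v hv, hu v hv, div_one]
    · rw [e1, Valuation.map_neg, map_div₀, hr a ha0 ha v hv, hu v hv, div_one]
  · intro a _ a' _ h
    have h2 : (a - b 0) / ((b 1 : K) - b 0) = (a' - b 0) / ((b 1 : K) - b 0) := h
    exact sub_left_injective ((div_left_inj' hne).1 h2)

/-- a polynomial with the root `b` is small near to `b` -/
theorem unif_lt (v : HeightOneSpectrum (𝓞 K)) (P : Polynomial (𝓞 K)) {b : 𝓞 K}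
    (hb : P.eval b = 0) {a : K} (ha : v.valuation K (a - b) < 1) :
    v.valuation K (Polynomial.aeval a P) < 1 := by
  obtain ⟨Q, hQ⟩ := Polynomial.dvd_iff_isRoot.2 hb
  have hva : v.valuation K a ≤ 1 := by
    have h1 : a = (a - b) + b := by ring
    rw [h1]
    exact (v.valuation K).map_add_le ha.le (val_int_le v b)
  have hQ1 : v.valuation K (Polynomial.aeval a Q) ≤ 1 := by
    rw [Polynomial.aeval_eq_sum_range]
    refine Valuation.map_sum_le _ fun i _ => ?_
    rw [Algebra.smul_def, map_mul, map_pow]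
    exact mul_le_one' (v.valuation_le_one _) (pow_le_one' hva _)
  have e1 : Polynomial.aeval a P = (a - b) * Polynomial.aeval a Q := by
    rw [hQ, map_mul, map_sub, Polynomial.aeval_X, Polynomial.aeval_C]
  rw [e1, map_mul]
  exact (mul_le_of_le_one_right' hQ1).trans_lt ha

end Pool.Agent.U854.DG
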